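import Pool.Agent.H92.BC.Main

/-!
# Cyclic branched covers of a Stein fillable contact manifold along the binding can be overtwisted

A negative answer to Q1 of MP_6fcedc_gt for the three notions of fillability: a closed connected
contact 3-manifold `(Y, α)` with a Stein filling, supported by a rational open book whose binding
`K` is connected, such that for every `m ≥ 1` the `2m`-fold cyclic branched cover along `K`, with
the pulled back open book, supports an overtwisted contact form.

The example is explicit. Let `V = {x ^ 2 * y = Z ^ 2 - 4}` in `ℂ ^ 3`,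
`Y = {|x| ^ 4 + |y| ^ 2 + 2 |Z| ^ 2 = 17}` in `V` (the lens space `L(4, 1)`, boundary of the disc
bundle of Euler number `-4` over the sphere), `F = 4 y + conj x ^ 2`, and
`α = Im (conj (x ^ 2) d (x ^ 2)) + Im (conj y dy) + 2 Im (conj Z dZ) + Im (conj x dx)`,
which is `-(dφ ∘ J) / 2` for `φ = |x| ^ 4 + |y| ^ 2 + 2 |Z| ^ 2 + |x| ^ 2`. The page is an annulus
which wraps twice around `K = {F = 0}`, and `ker α` is virtually overtwisted. The cover is
`Y' = {a * b = conj u ^ (2 m), |a| ^ 2 + |b| ^ 2 = 1}` with the open book `u / |u|` and the form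
`α' = Im (conj a da) + Im (conj b db) + 8 m ^ 2 Im (conj u du)`; the disc
`{a > 0, b = conj u ^ (2 m) / a}` contains an overtwisted disc.

For `m = 1` the cover is the unbranched double cover; for `m ≥ 2` it is branched, with index `m`
along the two circles over `K`. That `Y'` is connected for all `m` also shows that the pages
of the open book of `Y` are connected.

Outside Lean stay two published facts: the contact structure supported by an open book is unique
up to isotopy (which is part of the setting of the question), and overtwisted contact structures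
are not weakly fillable (Gromov, Eliashberg). Without the second one the theorem says that
between Stein fillability of `ξ` and tightness of `ξ'` there is no implication.
-/

namespace Pool.Agent.Results.MP_6fcedc_gt.FillableToOvertwisted

open Pool.Agent.H92.BC

/-- There is a closed connected contact 3-manifold `(Y, α)`, supported by a rational open book
`F / |F|` with connected binding, which has a Stein filling, such that for every `m ≥ 1` the
`2m`-fold cyclic branched cover `Y'` of `Y` along the binding (branching index `m`) is closed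
and connected and its pulled back open book supports an overtwisted contact form `α'`, where
the covering preserves the orientations. -/
theorem result :
    ∃ (Y : LevelSet (ℂ × ℂ × ℂ) (ℂ × ℝ) 3) (F : ℂ × ℂ × ℂ → ℂ)
      (α : ℂ × ℂ × ℂ → (ℂ × ℂ × ℂ →L[ℝ] ℝ)),
      IsCompact Y.carrier ∧ IsConnected Y.carrier ∧ IsConnected {p ∈ Y.carrier | F p = 0} ∧
      Supports Y F α ∧
      (∃ (V : LevelSet (ℂ × ℂ × ℂ) ℂ 4) (J : ℂ × ℂ × ℂ →L[ℝ] ℂ × ℂ × ℂ)
        (φ ψ : ℂ × ℂ × ℂ → ℝ) (c : ℝ), SteinFilling Y α V J φ ψ c) ∧
      ∀ m : ℕ, 1 ≤ m →
        ∃ (Y' : LevelSet (ℂ × ℂ × ℂ) (ℂ × ℝ) 3) (F' : ℂ × ℂ × ℂ → ℂ)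
          (α' : ℂ × ℂ × ℂ → (ℂ × ℂ × ℂ →L[ℝ] ℝ)) (g : ℂ × ℂ × ℂ → ℂ × ℂ × ℂ),
          IsCompact Y'.carrier ∧ IsConnected Y'.carrier ∧
          CyclicBranchedCover (2 * m) m Y' F' Y F g ∧ Supports Y' F' α' ∧
          OrientationPreserving Y' F' α' α g ∧ Overtwisted Y' α' :=
  main

end Pool.Agent.Results.MP_6fcedc_gt.FillableToOvertwisted
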